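import Mathlib
import Pool.Agent.H612R3.BpDefs
import Pool.Agent.H612R3.Bp3

set_option autoImplicit false
open scoped InnerProductSpace ComplexConjugate ENNReal Matrix
open Filter Topology MeasureTheory AddCircle ContinuousLinearMap
open Pool.Agent.Helper917.Hardy

namespace Pool.Agent.H843.BT

section core

variable {V : Type} [NormedAddCommGroup V] [InnerProductSpace ℂ V] [FiniteDimensional ℂ V]

set_option linter.unusedSectionVars false

/-- pointwise application of a constant operator -/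
noncomputable def cst (Q : V →L[ℂ] V) : L2 V →L[ℂ] L2 V := Q.compLpL 2 mu

lemma coeFn_cst (Q : V →L[ℂ] V) (f : L2 V) : cst Q f =ᵐ[mu] fun t => Q (f t) :=
  Q.coeFn_compLpL f

lemma coeff_cst (Q : V →L[ℂ] V) (f : L2 V) (n : ℤ) :
    fourierCoeff (cst Q f : L2 V) n = Q (fourierCoeff f n) := by
  rw [fourierCoeff_congr_ae (coeFn_cst Q f)]
  exact fourierCoeff_clm_apply Q f (integrable_L2 f) n

lemma cst_mul (Q S : V →L[ℂ] V) : cst Q * cst S = cst (Q * S) := by
  ext1 f
  apply ext_fourierCoeff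
  intro n
  show fourierCoeff (cst Q (cst S f) : L2 V) n = _
  rw [coeff_cst, coeff_cst, coeff_cst]
  rfl

lemma cst_adj (Q : V →L[ℂ] V) : star (cst Q) = cst (star Q) := by
  rw [ContinuousLinearMap.star_eq_adjoint]
  symm
  rw [ContinuousLinearMap.eq_adjoint_iff]
  intro f g
  rw [L2.inner_def, L2.inner_def]
  apply integral_congr_ae
  filter_upwards [coeFn_cst (star Q) f, coeFn_cst Q g] with t h1 h2
  rw [h1, h2, ContinuousLinearMap.star_eq_adjoint, ContinuousLinearMap.adjoint_inner_left]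

/-- the Riesz projection as an operator -/
noncomputable def RP : L2 V →L[ℂ] L2 V := (H2 V).starProjection

lemma RP_apply (f : L2 V) : RP f = riesz f := rfl

lemma RP_star : star (RP : L2 V →L[ℂ] L2 V) = RP := by
  exact (isSelfAdjoint_starProjection (H2 V))

lemma RP_mul : (RP : L2 V →L[ℂ] L2 V) * RP = RP := by
  ext1 f
  show riesz (riesz f) = riesz f
  exact riesz_eq_self (riesz_mem f)

lemma cst_RP (Q : V →L[ℂ] V) : cst Q * RP = RP * cst Q := by
  ext1 f
  apply ext_fourierCoeff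
  intro n
  show fourierCoeff (cst Q (riesz f) : L2 V) n = fourierCoeff (riesz (cst Q f)) n
  rw [coeff_cst, fourierCoeff_riesz, fourierCoeff_riesz, coeff_cst]
  split_ifs <;> simp

/-- multiplication by `ζ ^ m` -/
noncomputable def MM (m : ℤ) : L2 V →L[ℂ] L2 V := mulC (fourier m)

lemma coeff_MM (m n : ℤ) (f : L2 V) : fourierCoeff (MM m f : L2 V) n = fourierCoeff f (n - m) :=
  fourierCoeff_mulC_fourier m n f

lemma cst_MM (Q : V →L[ℂ] V) (m : ℤ) : cst Q * MM m = MM m * cst Q := by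
  ext1 f
  apply ext_fourierCoeff
  intro n
  show fourierCoeff (cst Q (MM m f) : L2 V) n = fourierCoeff (MM m (cst Q f) : L2 V) n
  rw [coeff_cst, coeff_MM, coeff_MM, coeff_cst]

lemma MM_star (m : ℤ) : star (MM m : L2 V →L[ℂ] L2 V) = MM (-m) := by
  rw [ContinuousLinearMap.star_eq_adjoint]
  symm
  rw [ContinuousLinearMap.eq_adjoint_iff]
  intro f g
  show ⟪mulC (fourier (-m)) f, g⟫_ℂ = ⟪f, mulC (fourier m) g⟫_ℂ
  rw [inner_mulC_left, star_fourier, neg_neg]

lemma MM_mul (m k : ℤ) : (MM m : L2 V →L[ℂ] L2 V) * MM k = MM (m + k) := by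
  ext1 f
  apply ext_fourierCoeff
  intro n
  show fourierCoeff (MM m (MM k f) : L2 V) n = _
  rw [coeff_MM, coeff_MM, coeff_MM]
  congr 1
  ring

lemma MM_zero : (MM 0 : L2 V →L[ℂ] L2 V) = 1 := by
  ext1 f
  apply ext_fourierCoeff
  intro n
  rw [coeff_MM, sub_zero]
  rfl

/-- the normal operator -/
noncomputable def NN (Q : V →L[ℂ] V) : L2 V →L[ℂ] L2 V :=
  cst Q * (RP * (MM 1 + MM (-1)) * RP) + cst (1 - Q) * MM 1

lemma NN_normal (Q : V →L[ℂ] V) (h1 : Q * Q = Q) (h2 : star Q = Q) : IsStarNormal (NN Q) := by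
  constructor
  show star (NN Q) * NN Q = NN Q * star (NN Q)
  obtain ⟨X, hX⟩ : ∃ X : L2 V →L[ℂ] L2 V, X = RP * (MM 1 + MM (-1)) * RP := ⟨_, rfl⟩
  have hXs : star X = X := by
    rw [hX, star_mul, star_mul, star_add, MM_star, MM_star, RP_star, neg_neg, add_comm (MM (-1)),
      mul_assoc]
  have hQX : cst Q * X = X * cst Q := by
    rw [hX]
    have e1 := cst_RP Q
    have e2 : cst Q * (MM 1 + MM (-1)) = (MM 1 + MM (-1)) * cst Q := by
      rw [mul_add, add_mul, cst_MM, cst_MM]
    calc cst Q * (RP * (MM 1 + MM (-1)) * RP) = (cst Q * RP) * (MM 1 + MM (-1)) * RP := by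
          simp only [mul_assoc]
      _ = RP * (cst Q * (MM 1 + MM (-1))) * RP := by rw [e1]; simp only [mul_assoc]
      _ = RP * (MM 1 + MM (-1)) * (cst Q * RP) := by rw [e2]; simp only [mul_assoc]
      _ = RP * (MM 1 + MM (-1)) * RP * cst Q := by rw [e1]; simp only [mul_assoc]
  have hQQ : cst Q * cst Q = cst Q := by rw [cst_mul, h1]
  have hPP : cst (1 - Q) * cst (1 - Q) = cst (1 - Q) := by
    rw [cst_mul]
    congr 1
    rw [sub_mul, mul_sub, mul_sub, h1]
    simp
  have hQP : cst Q * cst (1 - Q) = 0 := by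
    rw [cst_mul, mul_sub, h1, mul_one, sub_self]
    ext1 f
    apply ext_fourierCoeff
    intro n
    rw [coeff_cst]
    rw [show ((0 : L2 V →L[ℂ] L2 V) f) = 0 from rfl, ← coeffL_apply, ← coeffL_apply, map_zero]
    rfl
  have hPQ : cst (1 - Q) * cst Q = 0 := by
    rw [cst_mul, sub_mul, h1, one_mul, sub_self]
    ext1 f
    apply ext_fourierCoeff
    intro n
    rw [coeff_cst]
    rw [show ((0 : L2 V →L[ℂ] L2 V) f) = 0 from rfl, ← coeffL_apply, ← coeffL_apply, map_zero]
    rfl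
  have hs1 : star (cst Q) = cst Q := by rw [cst_adj, h2]
  have hs2 : star (cst (1 - Q) : L2 V →L[ℂ] L2 V) = cst (1 - Q) := by
    rw [cst_adj]
    congr 1
    rw [star_sub, star_one, h2]
  have hN : NN Q = cst Q * X + cst (1 - Q) * MM 1 := by rw [hX]; rfl
  have hNs : star (NN Q) = cst Q * X + cst (1 - Q) * MM (-1) := by
    have e1 : star (cst Q * X) = X * cst Q := by rw [star_mul, hXs, hs1]
    have e2 : star (cst (1 - Q) * MM 1 : L2 V →L[ℂ] L2 V) = MM (-1) * cst (1 - Q) := by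
      rw [star_mul, hs2, MM_star]
    rw [hN, star_add, e1, e2, ← hQX, ← cst_MM]
  have hM1 : (MM (-1) : L2 V →L[ℂ] L2 V) * MM 1 = 1 := by
    rw [MM_mul, show (-1 + 1 : ℤ) = 0 by norm_num, MM_zero]
  have hM2 : (MM 1 : L2 V →L[ℂ] L2 V) * MM (-1) = 1 := by
    rw [MM_mul, show (1 + -1 : ℤ) = 0 by norm_num, MM_zero]
  have key : ∀ a b : ℤ, (cst Q * X + cst (1 - Q) * MM a) * (cst Q * X + cst (1 - Q) * MM b) =
      cst Q * (X * X) + cst (1 - Q) * (MM a * MM b) := by
    intro a b
    have t1 : cst Q * X * (cst Q * X) = cst Q * (X * X) := by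
      calc cst Q * X * (cst Q * X) = cst Q * (X * cst Q) * X := by simp only [mul_assoc]
        _ = cst Q * cst Q * X * X := by rw [← hQX]; simp only [mul_assoc]
        _ = cst Q * (X * X) := by rw [hQQ, mul_assoc]
    have t2 : cst Q * X * (cst (1 - Q) * MM b) = 0 := by
      rw [hQX]
      calc X * cst Q * (cst (1 - Q) * MM b) = X * (cst Q * cst (1 - Q)) * MM b := by
            simp only [mul_assoc]
        _ = 0 := by rw [hQP]; simp
    have t3 : cst (1 - Q) * MM a * (cst Q * X) = 0 := by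
      rw [cst_MM]
      calc MM a * cst (1 - Q) * (cst Q * X) = MM a * (cst (1 - Q) * cst Q) * X := by
            simp only [mul_assoc]
        _ = 0 := by rw [hPQ]; simp
    have t4 : cst (1 - Q) * MM a * (cst (1 - Q) * MM b) = cst (1 - Q) * (MM a * MM b) := by
      calc cst (1 - Q) * MM a * (cst (1 - Q) * MM b)
          = cst (1 - Q) * (MM a * cst (1 - Q)) * MM b := by simp only [mul_assoc]
        _ = (cst (1 - Q) * cst (1 - Q)) * MM a * MM b := by
            rw [← cst_MM]; simp only [mul_assoc]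
        _ = _ := by rw [hPP, mul_assoc]
    rw [add_mul, mul_add, mul_add, t1, t2, t3, t4]
    simp
  rw [hNs, hN, key, key, hM1, hM2]

/-- multiplication by `ζ + ζ⁻¹` -/
noncomputable def CO : L2 V →L[ℂ] L2 V := MM 1 + MM (-1)

lemma CO_apply (f : L2 V) : CO f = MM 1 f + MM (-1) f := by
  rw [CO, ContinuousLinearMap.add_apply]

lemma coeff_CO (n : ℤ) (f : L2 V) :
    fourierCoeff (CO f : L2 V) n = fourierCoeff f (n - 1) + fourierCoeff f (n + 1) := by
  rw [CO_apply, fourierCoeff_add', coeff_MM, coeff_MM, sub_neg_eq_add]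

lemma NN_apply (Q : V →L[ℂ] V) (f : L2 V) :
    NN Q f = cst Q (riesz (CO (riesz f))) + cst (1 - Q) (MM 1 f) := by
  rw [NN, ContinuousLinearMap.add_apply, ContinuousLinearMap.mul_apply,
    ContinuousLinearMap.mul_apply, ContinuousLinearMap.mul_apply, ContinuousLinearMap.mul_apply,
    RP_apply, RP_apply, CO]

lemma NN_H2 (Q : V →L[ℂ] V) (f : L2 V) (hf : f ∈ H2 V) (m : ℤ) :
    fourierCoeff (NN Q f) m = Q (if m < 0 then 0 else fourierCoeff f (m - 1) +
      fourierCoeff f (m + 1)) + (1 - Q) (fourierCoeff f (m - 1)) := by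
  rw [NN_apply, fourierCoeff_add', coeff_cst, coeff_cst, coeff_MM, fourierCoeff_riesz, coeff_CO,
    riesz_eq_self hf]

end core

end Pool.Agent.H843.BT
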