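import Mathlib
import Pool.Agent.H843.BT.Core
import Pool.Agent.H612R3.BpDefs

set_option autoImplicit false
open scoped InnerProductSpace ComplexConjugate ENNReal Matrix
open Filter Topology MeasureTheory AddCircle ContinuousLinearMap
open Pool.Agent.Helper917.Hardy
open Pool.Agent.H612R3.BpDefs

namespace Pool.Agent.H843.BT

/-- `T` is subnormal: it is the restriction of a bounded normal operator `N` on a Hilbert space `K`
to an invariant subspace (`H` is identified with a subspace of `K` by an isometry `W`). -/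
def IsSubnormal {H : Type} [NormedAddCommGroup H] [InnerProductSpace ℂ H] [CompleteSpace H]
    (T : H →L[ℂ] H) : Prop :=
  ∃ (K : Type) (_ : NormedAddCommGroup K) (_ : InnerProductSpace ℂ K) (_ : CompleteSpace K)
    (N : K →L[ℂ] K) (W : H →ₗᵢ[ℂ] K), IsStarNormal N ∧ ∀ x : H, W (T x) = N (W x)

variable {n : ℕ}

/-- the coordinate projection -/
noncomputable def Pm (n : ℕ) (i0 : Fin n) : Matrix (Fin n) (Fin n) ℂ :=
  Matrix.diagonal fun i => if i = i0 then 1 else 0

lemma Pm_mul (i0 : Fin n) : Pm n i0 * Pm n i0 = Pm n i0 := by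
  rw [Pm, Matrix.diagonal_mul_diagonal]
  congr 1
  ext i
  split_ifs <;> simp

lemma Pm_herm (i0 : Fin n) : (Pm n i0)ᴴ = Pm n i0 := by
  rw [Pm, Matrix.diagonal_conjTranspose]
  congr 1
  ext i
  rw [Pi.star_apply]
  split_ifs <;> simp

/-- the symbol -/
noncomputable def Phi (n : ℕ) (i0 : Fin n) (t : Circ) : Matrix (Fin n) (Fin n) ℂ :=
  (fourier 1 t + fourier (-1) t) • Pm n i0 + fourier 1 t • (1 - Pm n i0)

/-- the Blaschke-Potapov product -/
noncomputable def Bm (n : ℕ) (i0 : Fin n) (z : ℂ) : Matrix (Fin n) (Fin n) ℂ :=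
  Pm n i0 + z ^ 2 • (1 - Pm n i0)

/-- the associated operator on `ℂⁿ` -/
noncomputable def Qm (n : ℕ) (i0 : Fin n) :
    EuclideanSpace ℂ (Fin n) →L[ℂ] EuclideanSpace ℂ (Fin n) :=
  Matrix.toEuclideanCLM (n := Fin n) (𝕜 := ℂ) (Pm n i0)

lemma Qm_mul (i0 : Fin n) : Qm n i0 * Qm n i0 = Qm n i0 := by
  rw [Qm, ← map_mul, Pm_mul]

lemma Qm_star (i0 : Fin n) : star (Qm n i0) = Qm n i0 := by
  rw [Qm, ← map_star]
  congr 1
  exact Pm_herm i0

lemma Qm_apply (i0 : Fin n) (x : EuclideanSpace ℂ (Fin n)) :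
    Qm n i0 x = WithLp.toLp 2 (Pm n i0 *ᵥ x.ofLp) := rfl

lemma one_sub_Qm (i0 : Fin n) (x : EuclideanSpace ℂ (Fin n)) :
    (1 - Qm n i0) x = WithLp.toLp 2 ((1 - Pm n i0) *ᵥ x.ofLp) := by
  rw [Matrix.sub_mulVec, Matrix.one_mulVec]
  rfl

section gen

variable {V : Type} [NormedAddCommGroup V] [InnerProductSpace ℂ V] [FiniteDimensional ℂ V]

lemma NN_mem (Q : V →L[ℂ] V) (f : H2 V) : (NN Q) (f : L2 V) ∈ H2 V := by
  intro m hm
  rw [NN_H2 Q f f.2, if_pos hm, f.2 (m - 1) (by omega)]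
  simp

/-- the compression to the Hardy space -/
noncomputable def TT (Q : V →L[ℂ] V) : H2 V →L[ℂ] H2 V :=
  ((NN Q).comp (H2 V).subtypeL).codRestrict (H2 V) (NN_mem Q)

lemma coe_TT (Q : V →L[ℂ] V) (f : H2 V) : ((TT Q f : H2 V) : L2 V) = NN Q f := rfl

lemma TT_riesz (Q : V →L[ℂ] V) (f : H2 V) :
    ((TT Q f : H2 V) : L2 V) = riesz (cst Q (CO (f : L2 V)) +
      cst (1 - Q) (MM 1 (f : L2 V))) := by
  rw [coe_TT]
  apply ext_fourierCoeff
  intro m
  rw [NN_H2 Q f f.2, fourierCoeff_riesz]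
  split_ifs with h
  · rw [f.2 (m - 1) (by omega)]
    simp
  · rw [fourierCoeff_add', coeff_cst, coeff_cst, coeff_MM, coeff_CO]

lemma TT_not_normal (Q : V →L[ℂ] V) (h2 : star Q = Q) (e : V) (he : e ≠ 0)
    (hQe : Q e = 0) : ¬ IsStarNormal (TT Q : H2 V →L[ℂ] H2 V) := by
  intro hN
  have hf0 : (mono 0 e : L2 V) ∈ H2 V := mono_mem_H2 0 le_rfl e
  have h1 : ContinuousLinearMap.adjoint (TT Q) ⟨mono 0 e, hf0⟩ = 0 := by
    apply ext_inner_right ℂ
    intro g
    rw [ContinuousLinearMap.adjoint_inner_left, inner_zero_left]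
    show ⟪(mono 0 e : L2 V), NN Q (g : L2 V)⟫_ℂ = 0
    rw [inner_mono, NN_H2 Q g g.2, g.2 (0 - 1) (by norm_num), map_zero, add_zero]
    rw [← ContinuousLinearMap.adjoint_inner_left, ← ContinuousLinearMap.star_eq_adjoint, h2, hQe,
      inner_zero_left]
  have h3 : TT Q ⟨mono 0 e, hf0⟩ = 0 :=
    (ContinuousLinearMap.IsStarNormal.adjoint_apply_eq_zero_iff hN _).1 h1
  have h4 : fourierCoeff ((TT Q ⟨mono 0 e, hf0⟩ : H2 V) : L2 V) 1 = e := by
    rw [coe_TT, NN_H2 Q _ hf0]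
    show Q (if (1 : ℤ) < 0 then 0 else fourierCoeff (mono 0 e : L2 V) (1 - 1) +
      fourierCoeff (mono 0 e : L2 V) (1 + 1)) +
      (1 - Q) (fourierCoeff (mono 0 e : L2 V) (1 - 1)) = e
    rw [fourierCoeff_mono, fourierCoeff_mono]
    norm_num
  rw [h3] at h4
  apply he
  rw [← h4, ← coeffL_apply]
  exact map_zero _

end gen

lemma TT_toep (i0 : Fin n) : IsToeplitz (Phi n i0)
    (TT (Qm n i0) : H2 (EuclideanSpace ℂ (Fin n)) →L[ℂ] H2 (EuclideanSpace ℂ (Fin n))) := by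
  intro f
  refine ⟨cst (Qm n i0) (CO (toL2 f)) + cst (1 - Qm n i0) (MM 1 (toL2 f)), ?_, ?_⟩
  · filter_upwards [Lp.coeFn_add (cst (Qm n i0) (CO (toL2 f)))
      (cst (1 - Qm n i0) (MM 1 (toL2 f))), coeFn_cst (Qm n i0) (CO (toL2 f)),
      coeFn_cst (1 - Qm n i0) (MM 1 (toL2 f)), coeFn_mulC (fourier 1) (toL2 f),
      coeFn_mulC (fourier (-1)) (toL2 f), Lp.coeFn_add (MM 1 (toL2 f)) (MM (-1) (toL2 f))]
      with t h1 h2 h3 h4 h5 h6
    rw [h1, Pi.add_apply, h2, h3]
    have e1 : ((MM 1 (toL2 f) : L2 (EuclideanSpace ℂ (Fin n))) : Circ → _) t =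
      fourier 1 t • (toL2 f) t := h4
    have e2 : ((MM (-1) (toL2 f) : L2 (EuclideanSpace ℂ (Fin n))) : Circ → _) t =
      fourier (-1) t • (toL2 f) t := h5
    have e3 : (((CO (toL2 f)) : L2 (EuclideanSpace ℂ (Fin n))) : Circ → _) t =
      (fourier 1 t + fourier (-1) t) • (toL2 f) t := by
      rw [CO_apply, h6, Pi.add_apply, e1, e2, add_smul]
    rw [e3, e1, one_sub_Qm, Qm_apply, Phi, Matrix.add_mulVec, Matrix.smul_mulVec,
      Matrix.smul_mulVec]
    simp only [WithLp.ofLp_smul, Matrix.mulVec_smul]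
    rfl
  · exact TT_riesz (Qm n i0) f

lemma TT_subnormal (i0 : Fin n) : IsSubnormal (H := HardySp n)
    (TT (Qm n i0) : H2 (EuclideanSpace ℂ (Fin n)) →L[ℂ] H2 (EuclideanSpace ℂ (Fin n))) := by
  refine ⟨L2 (EuclideanSpace ℂ (Fin n)), inferInstance, inferInstance, inferInstance,
    NN (Qm n i0), ((H2 (EuclideanSpace ℂ (Fin n))).subtypeₗᵢ : H2 (EuclideanSpace ℂ (Fin n)) →ₗᵢ[ℂ]
      L2 (EuclideanSpace ℂ (Fin n))), NN_normal _ (Qm_mul i0) (Qm_star i0), ?_⟩
  intro f
  exact coe_TT (Qm n i0) f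

lemma norm_fourier_one' (t : Circ) : ‖(fourier 1 t : ℂ)‖ = 1 := by
  simp

lemma Phi_eq (i0 : Fin n) (t : Circ) : Phi n i0 t = Bm n i0 (fourier 1 t) * (Phi n i0 t)ᴴ := by
  have h1 : Pm n i0 * (1 - Pm n i0) = 0 := by rw [mul_sub, mul_one, Pm_mul, sub_self]
  have h2 : (1 - Pm n i0) * Pm n i0 = 0 := by rw [sub_mul, one_mul, Pm_mul, sub_self]
  have h3 : (1 - Pm n i0) * (1 - Pm n i0) = 1 - Pm n i0 := by
    rw [mul_sub, mul_one, h2, sub_zero]
  have hc : conj (fourier 1 t : ℂ) = fourier (-1) t := (fourier_neg).symm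
  have hc' : conj (fourier (-1) t : ℂ) = fourier 1 t := by rw [← hc, Complex.conj_conj]
  have hz : (fourier 1 t : ℂ) * fourier (-1) t = 1 := by
    rw [← fourier_add, add_neg_cancel, fourier_zero]
  have hs : (Phi n i0 t)ᴴ = (fourier 1 t + fourier (-1) t) • Pm n i0 +
      (fourier (-1) t : ℂ) • (1 - Pm n i0) := by
    rw [Phi, Matrix.conjTranspose_add, Matrix.conjTranspose_smul, Matrix.conjTranspose_smul,
      Matrix.conjTranspose_sub, Matrix.conjTranspose_one, Pm_herm]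
    have e1 : star ((fourier 1 t : ℂ) + fourier (-1) t) = fourier 1 t + fourier (-1) t := by
      rw [star_add]
      show conj (fourier 1 t : ℂ) + conj (fourier (-1) t : ℂ) = _
      rw [hc, hc', add_comm]
    have e2 : star (fourier 1 t : ℂ) = fourier (-1) t := hc
    rw [e1, e2]
  rw [hs, Phi, Bm, add_mul, mul_add, mul_add, Matrix.mul_smul, Matrix.mul_smul, Matrix.mul_smul,
    Matrix.mul_smul, Matrix.smul_mul, Matrix.smul_mul, Pm_mul, h1, h2, h3, smul_zero, smul_zero,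
    smul_smul (fourier (-1) t : ℂ)]
  have e3 : (fourier (-1) t : ℂ) * (fourier 1 t) ^ 2 = fourier 1 t := by
    linear_combination (fourier 1 t : ℂ) * hz
  rw [e3]
  simp

lemma Bm_bp (i0 : Fin n) (hn : 2 ≤ n) : IsBlaschkePotapov (Bm n i0) := by
  have h1 : Pm n i0 * (1 - Pm n i0) = 0 := by rw [mul_sub, mul_one, Pm_mul, sub_self]
  have h2 : (1 - Pm n i0) * Pm n i0 = 0 := by rw [sub_mul, one_mul, Pm_mul, sub_self]
  have h3 : (1 - Pm n i0) * (1 - Pm n i0) = 1 - Pm n i0 := by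
    rw [mul_sub, mul_one, h2, sub_zero]
  refine ⟨1, one_mem _, [(0, 1 - Pm n i0), (0, 1 - Pm n i0)], ?_, ?_⟩
  · intro q hq
    have hq' : q = (0, 1 - Pm n i0) := by simpa using hq
    subst hq'
    refine ⟨by simp, ?_, ?_, h3⟩
    · intro h0
      haveI : Nontrivial (Fin n) := Fin.nontrivial_iff_two_le.2 hn
      obtain ⟨j, hj⟩ := exists_ne i0
      have := congrFun (congrFun h0 j) j
      simp [Pm, hj] at this
    · show (1 - Pm n i0)ᴴ = 1 - Pm n i0
      rw [Matrix.conjTranspose_sub, Matrix.conjTranspose_one, Pm_herm]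
  · intro z _
    simp only [List.map_cons, List.map_nil, List.prod_cons, List.prod_nil, sub_zero, map_zero,
      zero_mul, div_one, one_mul, mul_one, sub_sub_cancel]
    rw [add_mul, mul_add, mul_add, Matrix.smul_mul, Matrix.smul_mul, Matrix.mul_smul,
      Matrix.mul_smul, h3, h2, h1, Pm_mul, smul_smul, Bm, smul_zero, zero_add, add_zero, add_comm,
      pow_two]

lemma Phi_Linfty (i0 : Fin n) : IsLinfty (Phi n i0) := by
  constructor
  · intro i j
    apply Continuous.aestronglyMeasurable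
    unfold Phi
    simp only [Matrix.add_apply, Matrix.smul_apply, smul_eq_mul]
    exact (((fourier 1).continuous.add (fourier (-1)).continuous).mul continuous_const).add
      ((fourier 1).continuous.mul continuous_const)
  · refine ⟨3, ae_of_all _ fun t i j => ?_⟩
    have hz : ‖(fourier 1 t : ℂ)‖ = 1 := by simp
    have hz' : ‖(fourier (-1) t : ℂ)‖ = 1 := by simp
    have ha : ‖Pm n i0 i j‖ ≤ 1 := by
      unfold Pm
      rw [Matrix.diagonal_apply]
      split_ifs <;> simp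
    have hb : ‖(1 - Pm n i0) i j‖ ≤ 1 := by
      unfold Pm
      rw [Matrix.sub_apply, Matrix.one_apply, Matrix.diagonal_apply]
      split_ifs <;> simp
    have hc : Phi n i0 t i j = (fourier 1 t + fourier (-1) t) * Pm n i0 i j +
      fourier 1 t * (1 - Pm n i0) i j := rfl
    rw [hc]
    calc _ ≤ ‖(fourier 1 t + fourier (-1) t) * Pm n i0 i j‖ +
          ‖(fourier 1 t : ℂ) * (1 - Pm n i0) i j‖ := norm_add_le _ _
      _ ≤ (1 + 1) * 1 + 1 * 1 := by
          rw [norm_mul, norm_mul]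
          gcongr
          · exact (norm_add_le _ _).trans (by rw [hz, hz'])
          · exact hz.le
      _ = 3 := by norm_num

lemma Phi_not_Hinfty (i0 : Fin n) : ¬ IsHinfty (Phi n i0) := by
  rintro ⟨_, h⟩
  have h1 := h (-1) (by norm_num) i0 i0
  have h2 : (fun t => Phi n i0 t i0 i0) = fun t => (fourier 1 t : ℂ) + fourier (-1) t := by
    ext t
    simp [Phi, Pm]
  rw [h2] at h1
  have h3 : fourierCoeff (fun t : Circ => (fourier 1 t : ℂ) + fourier (-1) t) (-1) =
      fourierCoeff (fun t : Circ => (fourier 1 t : ℂ)) (-1) +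
      fourierCoeff (fun t : Circ => (fourier (-1) t : ℂ)) (-1) := by
    unfold fourierCoeff
    rw [← integral_add]
    · apply integral_congr_ae
      filter_upwards with t
      rw [smul_add]
    · have hc : Continuous fun t : Circ => (fourier (- -1) t : ℂ) • (fourier 1 t : ℂ) :=
        (fourier (- -1)).continuous.smul (fourier 1).continuous
      exact hc.integrable_of_hasCompactSupport (HasCompactSupport.of_compactSpace _)
    · have hc : Continuous fun t : Circ => (fourier (- -1) t : ℂ) • (fourier (-1) t : ℂ) :=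
        (fourier (- -1)).continuous.smul (fourier (-1)).continuous
      exact hc.integrable_of_hasCompactSupport (HasCompactSupport.of_compactSpace _)
  rw [h3] at h1
  have h4 := congrFun (fourierCoeff_fourier (T := (1 : ℝ)) 1) (-1)
  have h5 := congrFun (fourierCoeff_fourier (T := (1 : ℝ)) (-1)) (-1)
  rw [Pi.single_apply] at h4 h5
  have h6 : fourierCoeff (fun t : Circ => (fourier 1 t : ℂ)) (-1) = 0 := by
    rw [if_neg (by norm_num)] at h4
    exact h4
  have h7 : fourierCoeff (fun t : Circ => (fourier (-1) t : ℂ)) (-1) = 1 := by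
    rw [if_pos rfl] at h5
    exact h5
  rw [h6, h7] at h1
  norm_num at h1

theorem main (n : ℕ) (hn : 2 ≤ n) :
    ∃ (Φ : Circ → Matrix (Fin n) (Fin n) ℂ) (B : ℂ → Matrix (Fin n) (Fin n) ℂ)
      (T : HardySp n →L[ℂ] HardySp n),
      IsLinfty Φ ∧ IsToeplitz Φ T ∧ IsSubnormal T ∧ IsBlaschkePotapov B ∧
      (∀ t : Circ, Φ t = B (fourier 1 t) * (Φ t)ᴴ) ∧ ¬ IsStarNormal T ∧ ¬ IsHinfty Φ := by
  have i0 : Fin n := ⟨0, by omega⟩
  haveI : Nontrivial (Fin n) := Fin.nontrivial_iff_two_le.2 hn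
  obtain ⟨j, hj⟩ := exists_ne i0
  refine ⟨Phi n i0, Bm n i0, (TT (Qm n i0) : H2 (EuclideanSpace ℂ (Fin n)) →L[ℂ]
    H2 (EuclideanSpace ℂ (Fin n))), Phi_Linfty i0, TT_toep i0, TT_subnormal i0, Bm_bp i0 hn,
    Phi_eq i0, ?_, Phi_not_Hinfty i0⟩
  refine TT_not_normal (Qm n i0) (Qm_star i0) (EuclideanSpace.single j 1) ?_ ?_
  · simp
  · rw [Qm_apply]
    rw [PiLp.ofLp_single]
    rw [Matrix.mulVec_single_one]
    ext i
    simp only [Pm, Matrix.col_apply, Matrix.diagonal_apply, PiLp.zero_apply]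
    split_ifs with h1 h2
    · exact absurd (h1.symm.trans h2) hj
    · rfl
    · rfl

end Pool.Agent.H843.BT
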